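import Pool.Agent.N613.ET2.Complete
import Pool.Agent.N613.ET2.Lower

/-!
# The collapse threshold of the hierarchy of the `k`-restricted ET0L languages is two

Upper bound.  Let `G` be an ET0L system.  The carriers of the derived word are letters `x c` and `w c`
(and `z c` at the end).  Besides them the sentential forms of the new system contain control letters:
a clock letter for every state of a clock, and for every letter `x c` or `w c` a waiting gate and
open gates, one for every operation which rewrites that letter.  In every correct sentential form
*all* control letters are present, except for a small set `N v` of holes which depends on the state `v` of the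
clock (the clock letter of `v` itself, and gates).  A control letter `p` is removed by rewriting it into the
word of *all* control letters outside of the set `N v` of the current state: if this is done in a wrong
state, then all clock letters are present, and this can never be undone.  So such a table checks the
state of the whole control, although it has only two active letters, `p` and a guard `g` which
must be absent (it is rewritten into a dead letter).  The letter `x c` is rewritten by a table whose guard is an
open gate; the gate can be opened only in the proper state and only if the waiting gate is open, and the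
waiting gate is opened by a table whose guard is `x c`, at a time when all letters `x c` must have
been rewritten.  A letter `x c` which is not rewritten in time can never be rewritten again.

Lower bound (known, included for completeness).  The words `0 ^ n 1 ^ n 2 ^ n` are generated by a
two-restricted system.  In a shortest derivation by a one-restricted system, consider the last table that is
followed only by tables whose active letter becomes useless (there are boundedly many of these): it can be
left out.
-/

namespace Pool.Agent.Results.MP_4de4a9_lc.ThresholdTwo

open Pool.Agent.N613.ET

/-- The least positive `l` such that the `k`-restricted and the `(k+1)`-restricted ET0L systems generate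
the same languages for all `k ≥ l` is two; and every ET0L language is generated by a two-restricted
ET0L system. -/
theorem result :
    IsLeast {l : ℕ | 1 ≤ l ∧ ∀ k : ℕ, l ≤ k → ∀ α : Type, Fam k α = Fam (k + 1) α} 2 ∧
    ∀ (α : Type) (G : Sys α), lang G ∈ Fam 2 α := by
  have h1 : ∀ (α : Type) (G : Sys α), lang G ∈ Fam 2 α := fun α G =>
    ⟨Pool.Agent.N613.ET2.sim G, Pool.Agent.N613.ET2.sim_restr G, Pool.Agent.N613.ET2.sim_lang G⟩
  have hmono : ∀ k m : ℕ, k ≤ m → ∀ α : Type, Fam k α ⊆ Fam m α := by
    rintro k m hkm α L ⟨G, hG, rfl⟩
    exact ⟨G, fun h => (hG h).trans (by exact_mod_cast hkm), rfl⟩
  have h2 : ∀ k : ℕ, 2 ≤ k → ∀ α : Type, Fam k α = Fam (k + 1) α := by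
    intro k hk α
    refine Set.Subset.antisymm (hmono k (k + 1) (Nat.le_succ k) α) ?_
    rintro L ⟨G, _, rfl⟩
    exact hmono 2 k hk α (h1 α G)
  refine ⟨⟨⟨by norm_num, h2⟩, ?_⟩, h1⟩
  rintro l ⟨hl, h3⟩
  by_contra hh
  have hl1 : l = 1 := by omega
  subst hl1
  have h4 := h3 1 le_rfl (Fin 3)
  have h5 : lang Pool.Agent.N613.ET2.sysL ∈ Fam 2 (Fin 3) := h1 _ _
  rw [show (2 : ℕ) = 1 + 1 from rfl, ← h4] at h5
  obtain ⟨G, hG, hL⟩ := h5
  exact Pool.Agent.N613.ET2.lower hG (hL.trans Pool.Agent.N613.ET2.sysL_lang)

end Pool.Agent.Results.MP_4de4a9_lc.ThresholdTwo
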